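import Pool.Agent.H4.SE.Targets

/-!
MP_45b854_al, module IN: the smaller system has not much more entropy than the larger one.
-/

set_option autoImplicit false

namespace Pool.Agent.H48.SE4.IN

open Finset Equiv Pool.Agent.H4.SE
open scoped Classical

/-- the list of the changes -/
noncomputable def code {r d : ℕ} (T : Fin d → List (Fin r × Bool)) {k : ℕ} {β : Type} (M : ℕ)
    (ω : Oh r k β) :
    (Fin d × Fin (M + 1) → Option β × Option β) × (Fin k → Fin d × Fin (M + 1) → β) :=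
  (fun x => (ZZ T ω.1 (pt ω) (x.1, (x.2 : ℕ)),
      (ZZ T ω.1 (pt ω) (x.1, (x.2 : ℕ))).map (W T ω.1 x.1)),
    fun m x => pat T (sml ω).1 ((sml ω).2 m) x.1 (x.2 : ℕ))

noncomputable def BB {r d : ℕ} (T : Fin d → List (Fin r × Bool)) {k : ℕ} {β : Type} (M : ℕ)
    (ω : Oh r k β) :
    Option ((Fin d × Fin (M + 1) → Option β × Option β) × (Fin k → Fin d × Fin (M + 1) → β)) :=
  if Good T ω then none else some (code T M ω)

lemma BB_ne {r d : ℕ} (T : Fin d → List (Fin r × Bool)) {k : ℕ} {β : Type} (M : ℕ)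
    (ω : Oh r k β) : BB T M ω ≠ none ↔ ¬ Good T ω := by
  unfold BB
  by_cases h : Good T ω
  · simp [h]
  · simp [h]

lemma card_bound (N D k : ℕ) :
    Real.log (((((N + 1) * (N + 1)) ^ D * (N ^ D) ^ k : ℕ) : ℝ) + 1) ≤
      (2 * D + 1) * (k + 1) * Real.log (N + 2) := by
  have h1 : ((N + 1) * (N + 1)) ^ D * (N ^ D) ^ k + 1 ≤ (N + 2) ^ ((2 * D + 1) * (k + 1)) := by
    have a : ((N + 1) * (N + 1)) ^ D ≤ (N + 2) ^ (2 * D) := by
      rw [pow_mul]
      exact Nat.pow_le_pow_left (by nlinarith) _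
    have b : (N ^ D) ^ k ≤ (N + 2) ^ (D * k) := by
      rw [← pow_mul]
      exact Nat.pow_le_pow_left (by omega) _
    have c : ((N + 1) * (N + 1)) ^ D * (N ^ D) ^ k ≤ (N + 2) ^ (2 * D + D * k) := by
      rw [pow_add]
      exact Nat.mul_le_mul a b
    have e : 1 ≤ (N + 2) ^ (2 * D + D * k) := Nat.one_le_pow _ _ (by omega)
    calc ((N + 1) * (N + 1)) ^ D * (N ^ D) ^ k + 1 ≤ (N + 2) ^ (2 * D + D * k) * (N + 2) := by
          nlinarith
      _ = (N + 2) ^ (2 * D + D * k + 1) := by rw [pow_succ]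
      _ ≤ (N + 2) ^ ((2 * D + 1) * (k + 1)) := by
          refine Nat.pow_le_pow_right (by omega) ?_
          nlinarith [Nat.zero_le (D * k), Nat.zero_le k]
  have h2 : ((((N + 1) * (N + 1)) ^ D * (N ^ D) ^ k : ℕ) : ℝ) + 1 ≤
      ((N : ℝ) + 2) ^ ((2 * D + 1) * (k + 1)) := by exact_mod_cast h1
  have h3 := Real.log_le_log (by positivity) h2
  rw [Real.log_pow] at h3
  refine h3.trans (le_of_eq ?_)
  push_cast
  ring

theorem pf_IN (hEM : T_EM) (hEC : T_EC) (hER : T_ER) (hID : T_ID) (hIX : T_IX) (hIP : T_IP) :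
    T_IN := by
  intro r d T hred
  obtain ⟨C, hC, hG⟩ := hIP r d T hred
  set M : ℕ := ∑ j, (T j).length with hM
  have hlen : ∀ j, (T j).length < M + 1 := fun j =>
    Nat.lt_succ_of_le (Finset.single_le_sum (f := fun j => (T j).length)
      (fun _ _ => Nat.zero_le _) (Finset.mem_univ j))
  set D : ℕ := d * (M + 1) with hD
  refine ⟨C * (2 * D + 1) + 2 * Real.sqrt C, by positivity, ?_⟩
  intro k β _ _ _
  set N : ℕ := Fintype.card β with hN
  have hN0 : (0 : ℝ) < N := by exact_mod_cast Fintype.card_pos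
  have key : ∀ ω ω' : Oh r k β,
      ((WQ T (big ω), pat T (big ω).1 none), BB T M ω) =
        ((WQ T (big ω'), pat T (big ω').1 none), BB T M ω') →
      (WQ T (sml ω), ZZ T ω.1 (pt ω)) = (WQ T (sml ω'), ZZ T ω'.1 (pt ω')) := by
    intro ω ω' h
    obtain ⟨h1, h2⟩ := Prod.mk.inj h
    obtain ⟨h3, h4⟩ := Prod.mk.inj h1
    by_cases hg : Good T ω
    · by_cases hg' : Good T ω'
      · obtain ⟨a, b⟩ := hID r d T k β ω ω' hg hg' h3 h4
        rw [a, b]
      · simp only [BB, if_pos hg, if_neg hg'] at h2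
        exact absurd h2 (by simp)
    · by_cases hg' : Good T ω'
      · simp only [BB, if_neg hg, if_pos hg'] at h2
        exact absurd h2 (by simp)
      · simp only [BB, if_neg hg, if_neg hg'] at h2
        have h5 : code T M ω = code T M ω' := Option.some.inj h2
        obtain ⟨h6, h7⟩ := Prod.mk.inj h5
        obtain ⟨a, b⟩ := hIX r d T k β ω ω' (congrArg Prod.fst h3)
          (fun j l hl => by
            have h8 := congrFun h6 (j, (⟨l, hl.trans (hlen j)⟩ : Fin (M + 1)))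
            exact ⟨congrArg Prod.fst h8, congrArg Prod.snd h8⟩)
          (fun m j l hl => by
            exact congrFun (congrFun h7 m) (j, (⟨l, lt_of_le_of_lt hl (hlen j)⟩ : Fin (M + 1))))
        rw [a, b]
  have e1 : ent (fun ω : Oh r k β => (WQ T (sml ω), ZZ T ω.1 (pt ω))) ≤
      ent (fun ω : Oh r k β => ((WQ T (big ω), pat T (big ω).1 none), BB T M ω)) :=
    hEM _ _ _ _ _ key
  have e2 := (hEC (Oh r k β) _ _ (fun ω : Oh r k β => (WQ T (big ω), pat T (big ω).1 none))
    (fun ω : Oh r k β => BB T M ω)).2.2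
  have e3 : ((univ.filter fun ω : Oh r k β => BB T M ω ≠ none).card : ℝ) ≤
      (C * (k + 1) / N) * Fintype.card (Oh r k β) := by
    have e4 : (univ.filter fun ω : Oh r k β => BB T M ω ≠ none) =
        (univ.filter fun ω : Oh r k β => ¬ Good T ω) :=
      Finset.filter_congr fun ω _ => BB_ne T M ω
    rw [e4, div_mul_eq_mul_div, le_div_iff₀ hN0]
    exact hG k β
  have e5 := hER (Oh r k β) _ (fun ω : Oh r k β => BB T M ω) _ e3
  have e6 : Real.log ((Fintype.card ((Fin d × Fin (M + 1) → Option β × Option β) ×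
      (Fin k → Fin d × Fin (M + 1) → β)) : ℝ) + 1) ≤
      (2 * D + 1) * (k + 1) * Real.log (N + 2) := by
    have e7 : Fintype.card ((Fin d × Fin (M + 1) → Option β × Option β) ×
      (Fin k → Fin d × Fin (M + 1) → β)) = ((N + 1) * (N + 1)) ^ D * (N ^ D) ^ k := by
      simp [Fintype.card_pi, hN, hD]
    rw [e7]
    exact card_bound N D k
  have e8 : ent (fun ω : Oh r k β => BB T M ω) ≤
      C * (k + 1) / N * ((2 * D + 1) * (k + 1) * Real.log (N + 2)) +
        2 * Real.sqrt (C * (k + 1) / N) := by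
    refine e5.trans (add_le_add (mul_le_mul_of_nonneg_left e6 (by positivity)) le_rfl)
  have e9 : C * (k + 1) / N * ((2 * D + 1) * (k + 1) * Real.log (N + 2)) =
      C * (2 * D + 1) * (((k : ℝ) + 1) ^ 2 * Real.log (N + 2) / N) := by ring
  have e10 : Real.sqrt (C * (k + 1) / N) = Real.sqrt C * Real.sqrt (((k : ℝ) + 1) / N) := by
    rw [mul_div_assoc, Real.sqrt_mul hC]
  rw [e9, e10] at e8
  have hX : 0 ≤ ((k : ℝ) + 1) ^ 2 * Real.log (N + 2) / N := by
    have : 0 ≤ Real.log ((N : ℝ) + 2) := Real.log_nonneg (by linarith)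
    positivity
  have hY : 0 ≤ Real.sqrt (((k : ℝ) + 1) / N) := Real.sqrt_nonneg _
  have hS : 0 ≤ Real.sqrt C := Real.sqrt_nonneg _
  have hCD : 0 ≤ C * (2 * D + 1) := by positivity
  have e11 := mul_nonneg hCD hY
  have e12 := mul_nonneg hS hX
  nlinarith [e1, e2, e8, e11, e12]

end Pool.Agent.H48.SE4.IN
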