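import Pool.Agent.H4.SE.Targets

/-!
MP_45b854_al, module P1: one coordinate of the coupling.
-/

set_option autoImplicit false

namespace Pool.Agent.H48.SE4.P1

open Finset Equiv Pool.Agent.H4.SE

/-- double counting with a replaceable coordinate -/
lemma count {Ω X : Type} [Fintype Ω] [Fintype X] (g : Ω → X) (u : Ω → X → Ω)
    (huu : ∀ ω x y, u (u ω x) y = u ω y) (hug : ∀ ω, u ω (g ω) = ω) (hgu : ∀ ω x, g (u ω x) = x)
    (P : Ω → X → Prop) (hP : ∀ ω y x, P (u ω y) x ↔ P ω x) (c : ℕ)
    [DecidablePred fun ω => P ω (g ω)] [∀ ω, DecidablePred fun x => P ω x]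
    (hc : ∀ ω, (univ.filter fun x => P ω x).card = c) :
    (univ.filter fun ω => P ω (g ω)).card * Fintype.card X = c * Fintype.card Ω := by
  classical
  have h1 : (univ.filter fun p : Ω × X => P p.1 p.2).card = c * Fintype.card Ω := by
    rw [Finset.card_filter, Fintype.sum_prod_type]
    have : ∀ ω : Ω, ∑ x : X, (if P (ω, x).1 (ω, x).2 then 1 else 0) = c := fun ω => by
      rw [← hc ω, Finset.card_filter]
    rw [Finset.sum_congr rfl fun ω _ => this ω, Finset.sum_const, Finset.card_univ, smul_eq_mul,
      mul_comm]
  have h2 : (univ.filter fun p : Ω × X => P p.1 (g p.1)).card =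
      (univ.filter fun ω => P ω (g ω)).card * Fintype.card X := by
    rw [← Finset.card_univ, ← Finset.card_product]
    congr 1
    ext p
    simp
  rw [← h1, ← h2]
  refine Finset.card_bij' (fun p _ => (u p.1 p.2, g p.1)) (fun p _ => (u p.1 p.2, g p.1)) ?_ ?_ ?_ ?_
  · intro p hp
    simp only [Finset.mem_filter, Finset.mem_univ, true_and] at hp ⊢
    exact (hP _ _ _).2 hp
  · intro p hp
    simp only [Finset.mem_filter, Finset.mem_univ, true_and] at hp ⊢
    rw [hgu]
    exact (hP _ _ _).2 hp
  · intro p hp
    simp only [huu, hug, hgu]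
  · intro p hp
    simp only [huu, hug, hgu]

lemma card_getD {β : Type} [Fintype β] [DecidableEq β] (b : β)
    [DecidablePred fun x : Option β × β => x.1.getD x.2 = b] :
    (univ.filter fun x : Option β × β => x.1.getD x.2 = b).card = Fintype.card β + 1 := by
  have h : (univ.filter fun x : Option β × β => x.1.getD x.2 = b) =
      insert (none, b) ((univ : Finset β).image fun y => (some b, y)) := by
    ext ⟨o, y⟩
    cases o with
    | none => simp
    | some a => simp [eq_comm]
  rw [h, Finset.card_insert_of_notMem (by simp),
    Finset.card_image_of_injective _ fun y z h => by simpa using h, Finset.card_univ]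

lemma card_none {β : Type} [Fintype β]
    [DecidablePred fun x : Option β × β => x.1 = none] :
    (univ.filter fun x : Option β × β => x.1 = none).card = Fintype.card β := by
  classical
  have h : (univ.filter fun x : Option β × β => x.1 = none) =
      (univ : Finset β).image fun y => (none, y) := by
    ext ⟨o, y⟩
    cases o with
    | none => simp
    | some a => simp
  rw [h, Finset.card_image_of_injective _ fun y z h => by simpa using h, Finset.card_univ]

theorem pf_P1 : T_P1 := by
  intro r k β _ _ _
  have hβ : 0 < Fintype.card β := Fintype.card_pos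
  have hX : Fintype.card (Option β × β) = (Fintype.card β + 1) * Fintype.card β := by
    rw [Fintype.card_prod, Fintype.card_option]
  refine ⟨fun i F hF => ?_, fun i => ?_, fun m => ?_⟩
  · have h := count (Ω := Oh r k β) (X := Option β × β) (fun ω => ω.2.1 i)
      (fun ω x => (ω.1, Function.update ω.2.1 i x, ω.2.2))
      (fun ω x y => by simp) (fun ω => by simp) (fun ω x => by simp)
      (fun ω x => x.1.getD x.2 = F ω) (fun ω y x => by rw [hF]) (Fintype.card β + 1)
      (fun ω => card_getD _)
    rw [hX] at h
    have h' : (Fintype.card β + 1) * ((univ.filter fun ω : Oh r k β => pt ω i = F ω).card *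
        Fintype.card β) = (Fintype.card β + 1) * Fintype.card (Oh r k β) := by
      rw [← h]
      unfold pt
      ring
    exact Nat.eq_of_mul_eq_mul_left (Nat.succ_pos _) h'
  · have h := count (Ω := Oh r k β) (X := Option β × β) (fun ω => ω.2.1 i)
      (fun ω x => (ω.1, Function.update ω.2.1 i x, ω.2.2))
      (fun ω x y => by simp) (fun ω => by simp) (fun ω x => by simp)
      (fun ω x => x.1 = none) (fun ω y x => Iff.rfl) (Fintype.card β)
      (fun ω => card_none)
    rw [hX] at h
    have h' : Fintype.card β * ((univ.filter fun ω : Oh r k β => (ω.2.1 i).1 = none).card *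
        (Fintype.card β + 1)) = Fintype.card β * Fintype.card (Oh r k β) := by
      rw [← h]
      ring
    exact Nat.eq_of_mul_eq_mul_left hβ h'
  · have h := count (Ω := Oh r k β) (X := Option β × β) (fun ω => ω.2.2 m)
      (fun ω x => (ω.1, ω.2.1, Function.update ω.2.2 m x))
      (fun ω x y => by simp) (fun ω => by simp) (fun ω x => by simp)
      (fun ω x => x.1 = none) (fun ω y x => Iff.rfl) (Fintype.card β)
      (fun ω => card_none)
    rw [hX] at h
    have h' : Fintype.card β * ((univ.filter fun ω : Oh r k β => (ω.2.2 m).1 = none).card *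
        (Fintype.card β + 1)) = Fintype.card β * Fintype.card (Oh r k β) := by
      rw [← h]
      ring
    exact Nat.eq_of_mul_eq_mul_left hβ h'

end Pool.Agent.H48.SE4.P1
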